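import Pool.Agent.H83.BF.Chain

/-!
# Local finiteness

`fin_closure`: a finitely generated group of finite exponent in which finitely many elements, each
commuting with all its conjugates, generate a normal subgroup of finite index, is finite.
`main_fg`: a finitely generated group of exponent `p^k`, `p` odd, in which any two conjugate
elements generate a finite group `K` with `K^p` powerful, and powerful if `p ≠ 3`, is finite.
-/

set_option autoImplicit false

namespace Pool.Agent.H83.BF

open Subgroup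
open scoped commutatorElement

universe u

theorem finite_of_normal {Γ : Type u} [Group Γ] (N : Subgroup Γ) [N.FiniteIndex] [Finite N] :
    Finite Γ :=
  Finite.of_equiv _ (groupEquivQuotientProdSubgroup (s := N)).symm

theorem fin_abelian {Γ : Type u} [Group Γ] [Group.FG Γ] {m : ℕ} (hm : 0 < m)
    (hexp : ∀ g : Γ, g ^ m = 1) (N : Subgroup Γ) [N.FiniteIndex]
    (hN : ∀ a ∈ N, ∀ b ∈ N, a * b = b * a) : Finite Γ := by
  have h1 : Group.FG N := inferInstance
  let _ : CommGroup N :=
    { (inferInstance : Group N) with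
      mul_comm := fun a b => Subtype.ext (hN a a.2 b b.2) }
  have h2 : Finite N := by
    apply CommGroup.finite_of_fg_isMulTorsion
    intro g
    rw [isOfFinOrder_iff_pow_eq_one]
    exact ⟨m, hm, Subtype.ext (by simpa using hexp (g : Γ))⟩
  exact finite_of_normal N

theorem normalClosure_singleton_comm {Γ : Type u} [Group Γ] (a : Γ)
    (ha : ∀ g : Γ, Commute a (g * a * g⁻¹)) :
    ∀ x ∈ normalClosure {a}, ∀ y ∈ normalClosure {a}, x * y = y * x := by
  have h1 : ∀ x ∈ Group.conjugatesOfSet {a}, ∀ y ∈ Group.conjugatesOfSet {a}, x * y = y * x := by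
    intro x hx y hy
    rw [Group.mem_conjugatesOfSet_iff] at hx hy
    obtain ⟨b, hb, hxb⟩ := hx
    obtain ⟨c, hc, hyc⟩ := hy
    rw [Set.mem_singleton_iff] at hb hc
    subst hb
    subst hc
    obtain ⟨g, rfl⟩ := isConj_iff.1 hxb
    obtain ⟨h, rfl⟩ := isConj_iff.1 hyc
    have h2 := ha (g⁻¹ * h)
    have h3 : g * (c * (g⁻¹ * h * c * (g⁻¹ * h)⁻¹)) * g⁻¹ =
        g * (g⁻¹ * h * c * (g⁻¹ * h)⁻¹ * c) * g⁻¹ := by rw [h2.eq]
    calc g * c * g⁻¹ * (h * c * h⁻¹) =
          g * (c * (g⁻¹ * h * c * (g⁻¹ * h)⁻¹)) * g⁻¹ := by group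
      _ = _ := h3
      _ = _ := by group
  intro x hx y hy
  have h2 : normalClosure {a} ≤ centralizer (Group.conjugatesOfSet {a}) := by
    rw [normalClosure, closure_le]
    intro x hx
    rw [SetLike.mem_coe, mem_centralizer_iff]
    intro y hy
    exact h1 y hy x hx
  have h3 : normalClosure {a} ≤ centralizer (normalClosure {a} : Set Γ) := by
    rw [normalClosure, closure_le]
    intro x hx
    rw [SetLike.mem_coe, mem_centralizer_iff]
    intro y hy
    have h4 := h2 hy
    rw [mem_centralizer_iff] at h4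
    exact (h4 x hx).symm
  have h4 := h3 hx
  rw [mem_centralizer_iff] at h4
  exact (h4 y hy).symm

theorem fin_closure (n : ℕ) : ∀ (Γ : Type u) [Group Γ] [Group.FG Γ] (m : ℕ), 0 < m →
    (∀ g : Γ, g ^ m = 1) → ∀ S : Finset Γ, S.card ≤ n →
    (∀ a ∈ S, ∀ g : Γ, Commute a (g * a * g⁻¹)) →
    (normalClosure (S : Set Γ)).FiniteIndex → Finite Γ := by
  classical
  induction n with
  | zero =>
    intro Γ _ _ m hm hexp S hS _ hfi
    have h1 : S = ∅ := Finset.card_eq_zero.1 (Nat.le_zero.1 hS)
    subst h1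
    refine fin_abelian hm hexp (normalClosure ((∅ : Finset Γ) : Set Γ)) ?_
    intro a ha b hb
    rw [Finset.coe_empty] at ha hb
    have h2 : normalClosure (∅ : Set Γ) = ⊥ := by
      rw [eq_bot_iff]
      exact normalClosure_le_normal (Set.empty_subset _)
    rw [h2, mem_bot] at ha hb
    rw [ha, hb]
  | succ n ih =>
    intro Γ _ _ m hm hexp S hS hc hfi
    rcases S.eq_empty_or_nonempty with h0 | ⟨a, ha⟩
    · exact ih Γ m hm hexp S (by rw [h0]; simp) hc hfi
    let N : Subgroup Γ := normalClosure {a}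
    let π : Γ →* Γ ⧸ N := QuotientGroup.mk' N
    have hπ : Function.Surjective π := QuotientGroup.mk'_surjective N
    have hexp' : ∀ g : Γ ⧸ N, g ^ m = 1 := by
      intro g
      obtain ⟨g, rfl⟩ := hπ g
      rw [← map_pow, hexp, map_one]
    have hS' : ((S.erase a).image π).card ≤ n := by
      refine Finset.card_image_le.trans ?_
      rw [Finset.card_erase_of_mem ha]
      omega
    have hfi' : (normalClosure (((S.erase a).image π : Finset (Γ ⧸ N)) : Set (Γ ⧸ N))).FiniteIndex := by
      have h1 : normalClosure (S : Set Γ) ≤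
          (normalClosure (((S.erase a).image π : Finset (Γ ⧸ N)) : Set (Γ ⧸ N))).comap π := by
        apply normalClosure_le_normal
        intro s hs
        rw [SetLike.mem_coe, mem_comap]
        by_cases hsa : s = a
        · have h2 : π s = 1 := by
            rw [hsa, ← MonoidHom.mem_ker, QuotientGroup.ker_mk']
            exact subset_normalClosure rfl
          rw [h2]
          exact one_mem _
        · apply subset_normalClosure
          rw [Finset.coe_image]
          exact ⟨s, by simpa using ⟨hs, hsa⟩, rfl⟩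
      have h2 : ((normalClosure (((S.erase a).image π : Finset (Γ ⧸ N)) :
          Set (Γ ⧸ N))).comap π).FiniteIndex := finiteIndex_of_le h1
      have h3 := h2.index_ne_zero
      rw [index_comap_of_surjective _ hπ] at h3
      exact ⟨h3⟩
    have hfin : Finite (Γ ⧸ N) := by
      refine ih (Γ ⧸ N) m hm hexp' ((S.erase a).image π) hS' ?_ hfi'
      intro b hb g
      obtain ⟨g, rfl⟩ := hπ g
      rw [Finset.mem_image] at hb
      obtain ⟨c, hcS, rfl⟩ := hb
      have h1 := hc c (Finset.mem_of_mem_erase hcS) g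
      have h2 := h1.map π
      rwa [map_mul, map_mul, map_inv] at h2
    have hNfi : N.FiniteIndex := finiteIndex_of_finite_quotient
    exact fin_abelian hm hexp N (normalClosure_singleton_comm a (hc a ha))

theorem exists_finset_of_mem_closure {Γ : Type u} [Group Γ] (D : Set Γ) (x : Γ)
    (hx : x ∈ Subgroup.closure D) :
    ∃ S : Finset Γ, (S : Set Γ) ⊆ D ∧ x ∈ Subgroup.closure (S : Set Γ) := by
  classical
  induction hx using Subgroup.closure_induction with
  | mem x hx => exact ⟨{x}, by simpa using hx, Subgroup.subset_closure (by simp)⟩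
  | one => exact ⟨∅, by simp, one_mem _⟩
  | mul x y _ _ hx hy =>
    obtain ⟨S, hS, hxS⟩ := hx
    obtain ⟨T, hT, hyT⟩ := hy
    refine ⟨S ∪ T, by rw [Finset.coe_union]; exact Set.union_subset hS hT, ?_⟩
    refine mul_mem (Subgroup.closure_mono ?_ hxS) (Subgroup.closure_mono ?_ hyT)
    · rw [Finset.coe_union]; exact Set.subset_union_left
    · rw [Finset.coe_union]; exact Set.subset_union_right
  | inv x _ hx =>
    obtain ⟨S, hS, hxS⟩ := hx
    exact ⟨S, hS, inv_mem hxS⟩

theorem exists_finset_closure {Γ : Type u} [Group Γ] (D : Set Γ)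
    (h : (Subgroup.closure D).FG) :
    ∃ S : Finset Γ, (S : Set Γ) ⊆ D ∧ Subgroup.closure (S : Set Γ) = Subgroup.closure D := by
  classical
  obtain ⟨T, hT⟩ := h
  have h1 : ∀ x : T, ∃ S : Finset Γ, (S : Set Γ) ⊆ D ∧ (x : Γ) ∈ Subgroup.closure (S : Set Γ) :=
    fun x => exists_finset_of_mem_closure D x (by
      rw [← hT]
      exact Subgroup.subset_closure x.2)
  choose S hS hxS using h1
  refine ⟨Finset.univ.biUnion S, ?_, ?_⟩
  · intro s hs
    simp only [Finset.coe_biUnion, Set.mem_iUnion] at hs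
    obtain ⟨x, -, hx⟩ := hs
    exact hS x hx
  · apply le_antisymm
    · apply Subgroup.closure_mono
      intro s hs
      simp only [Finset.coe_biUnion, Set.mem_iUnion] at hs
      obtain ⟨x, -, hx⟩ := hs
      exact hS x hx
    · rw [← hT, closure_le]
      intro x hx
      refine Subgroup.closure_mono ?_ (hxS ⟨x, hx⟩)
      intro s hs
      simp only [Finset.coe_biUnion, Set.mem_iUnion]
      exact ⟨⟨x, hx⟩, Finset.mem_univ _, hs⟩

/-- in a group of exponent three conjugate elements commute -/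
theorem comm_conj_three {Γ : Type u} [Group Γ] (h : ∀ g : Γ, g ^ 3 = 1) (x g : Γ) :
    Commute x (g * x * g⁻¹) := by
  have h1 : ∀ a b : Γ, a * b * a = b⁻¹ * a⁻¹ * b⁻¹ := by
    intro a b
    have h2 := h (a * b)
    rw [pow_succ, pow_succ, pow_one] at h2
    calc a * b * a = (a * b * (a * b) * (a * b)) * (b⁻¹ * a⁻¹ * b⁻¹) := by group
      _ = _ := by rw [h2, one_mul]
  have h2 : g⁻¹ * g⁻¹ = g := by
    have h3 := h g
    rw [pow_succ, pow_succ, pow_one] at h3
    calc g⁻¹ * g⁻¹ = g⁻¹ * g⁻¹ * (g * g * g) := by rw [h3, mul_one]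
      _ = g := by group
  have h3 := h1 x g
  have h4 := h1 x g⁻¹
  rw [inv_inv] at h4
  have h5 : g * g = g⁻¹ := by
    rw [← mul_left_inj g⁻¹, mul_inv_cancel_right, h2]
  calc x * (g * x * g⁻¹) = (x * g * x) * g⁻¹ := by group
    _ = g⁻¹ * x⁻¹ * (g⁻¹ * g⁻¹) := by rw [h3]; group
    _ = g⁻¹ * x⁻¹ * g := by rw [h2]
    _ = g * g * x⁻¹ * g := by rw [h5]
    _ = g * (g * x⁻¹ * g) := by group
    _ = g * (x * g⁻¹ * x) := by rw [h4]
    _ = g * x * g⁻¹ * x := by group

/-- if the `p^i`-th powers of conjugate elements commute modulo the subgroup generated by the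
`p^(i+1)`-th powers and the subgroup generated by the `p^i`-th powers has finite index, then so has
the subgroup generated by the `p^(i+1)`-th powers -/
theorem step {G : Type u} [Group G] [Group.FG G] {p : ℕ} [Fact p.Prime] (i : ℕ)
    (ih : (pw (p ^ i) (⊤ : Subgroup G)).FiniteIndex)
    (hcomm : ∀ x g : G, ⁅x ^ (p ^ i), (g * x * g⁻¹) ^ (p ^ i)⁆ ∈ pw (p ^ (i + 1)) (⊤ : Subgroup G)) :
    (pw (p ^ (i + 1)) (⊤ : Subgroup G)).FiniteIndex := by
  classical
  have hpp : p.Prime := Fact.out
  let N : Subgroup G := pw (p ^ (i + 1)) ⊤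
  let π : G →* G ⧸ N := QuotientGroup.mk' N
  have hπ : Function.Surjective π := QuotientGroup.mk'_surjective N
  have hker : ∀ y : G, π y = 1 ↔ y ∈ N := fun y => by
    rw [← MonoidHom.mem_ker, QuotientGroup.ker_mk']
  have hexp' : ∀ g : G ⧸ N, g ^ (p ^ (i + 1)) = 1 := by
    intro g
    obtain ⟨g, rfl⟩ := hπ g
    rw [← map_pow, hker]
    exact pow_mem_pw (mem_top g)
  have hA : (pw (p ^ i) (⊤ : Subgroup (G ⧸ N))).FiniteIndex := by
    have h1 : (pw (p ^ i) (⊤ : Subgroup G)).map π = pw (p ^ i) ⊤ := by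
      rw [map_pw, map_top_of_surjective _ hπ]
    have h2 : (pw (p ^ i) (⊤ : Subgroup G)) ≤ (pw (p ^ i) (⊤ : Subgroup (G ⧸ N))).comap π := by
      rw [← map_le_iff_le_comap, h1]
    have h3 : ((pw (p ^ i) (⊤ : Subgroup (G ⧸ N))).comap π).FiniteIndex :=
      finiteIndex_of_le h2
    have h4 := h3.index_ne_zero
    rw [index_comap_of_surjective _ hπ] at h4
    exact ⟨h4⟩
  have hfg : (pw (p ^ i) (⊤ : Subgroup (G ⧸ N))).FG := by
    rw [← Group.fg_iff_subgroup_fg]
    infer_instance
  obtain ⟨S, hS, hSA⟩ := exists_finset_closure _ hfg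
  have hfin : Finite (G ⧸ N) := by
    refine fin_closure S.card (G ⧸ N) (p ^ (i + 1)) (pow_pos hpp.pos _) hexp' S le_rfl ?_ ?_
    · intro a ha g
      obtain ⟨g, rfl⟩ := hπ g
      obtain ⟨b, -, hb⟩ := hS ha
      obtain ⟨x, rfl⟩ := hπ b
      simp only at hb
      rw [← hb]
      rw [← map_pow, ← map_inv, ← map_mul, ← map_mul]
      have h4 : g * x ^ (p ^ i) * g⁻¹ = (g * x * g⁻¹) ^ (p ^ i) := by
        rw [conj_pow]
      rw [h4, ← commutatorElement_eq_one_iff_commute, ← map_commutatorElement, hker]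
      exact hcomm x g
    · refine finiteIndex_of_le (H := pw (p ^ i) (⊤ : Subgroup (G ⧸ N))) ?_
      rw [pw, ← hSA]
      exact closure_le_normalClosure
  exact finiteIndex_of_finite_quotient

/-- finitely generated groups of exponent three: the cubes have finite index -/
theorem three_fi {G : Type u} [Group G] [Group.FG G] :
    (pw (3 ^ 1) (⊤ : Subgroup G)).FiniteIndex := by
  have : Fact (Nat.Prime 3) := ⟨Nat.prime_three⟩
  refine step (p := 3) 0 ?_ ?_
  · have h1 : pw (3 ^ 0) (⊤ : Subgroup G) = ⊤ := by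
      rw [eq_top_iff]
      intro x _
      have := pow_mem_pw (n := 3 ^ 0) (mem_top x : x ∈ (⊤ : Subgroup G))
      rwa [pow_zero, pow_one] at this
    rw [h1]
    infer_instance
  · intro x g
    let N : Subgroup G := pw (3 ^ (0 + 1)) ⊤
    let π : G →* G ⧸ N := QuotientGroup.mk' N
    have hπ : Function.Surjective π := QuotientGroup.mk'_surjective N
    have hker : ∀ y : G, π y = 1 ↔ y ∈ N := fun y => by
      rw [← MonoidHom.mem_ker, QuotientGroup.ker_mk']
    have e : ⁅x ^ (3 ^ 0), (g * x * g⁻¹) ^ (3 ^ 0)⁆ = ⁅x, g * x * g⁻¹⁆ := by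
      rw [pow_zero, pow_one, pow_one]
    rw [e]
    show ⁅x, g * x * g⁻¹⁆ ∈ N
    rw [← hker, map_commutatorElement,
      commutatorElement_eq_one_iff_commute, map_mul, map_mul, map_inv]
    apply comm_conj_three
    intro y
    obtain ⟨y, rfl⟩ := hπ y
    rw [← map_pow, hker]
    exact pow_mem_pw (n := 3) (mem_top y)

/-- the main theorem for finitely generated groups -/
theorem main_fg {G : Type u} [Group G] [Group.FG G] {p : ℕ} [Fact p.Prime] (hp : Odd p) (k j : ℕ)
    (hexp : ∀ g : G, g ^ (p ^ k) = 1)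
    (hfi : (pw (p ^ j) (⊤ : Subgroup G)).FiniteIndex)
    (hconj : ∀ x g : G, Finite (Subgroup.closure {x, g * x * g⁻¹}) ∧
      ⁅pw (p ^ j) (Subgroup.closure {x, g * x * g⁻¹}),
        pw (p ^ j) (Subgroup.closure {x, g * x * g⁻¹})⁆ ≤
        pw p (pw (p ^ j) (Subgroup.closure {x, g * x * g⁻¹}))) : Finite G := by
  have hpp : p.Prime := Fact.out
  have hPG : IsPGroup p G := fun g => ⟨k, hexp g⟩
  have hind : ∀ i : ℕ, (pw (p ^ (j + i)) (⊤ : Subgroup G)).FiniteIndex := by
    intro i
    induction i with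
    | zero => exact hfi
    | succ i ih =>
      refine step (j + i) ih ?_
      intro x g
      obtain ⟨h1, h2⟩ := hconj x g
      have hxK : x ∈ Subgroup.closure {x, g * x * g⁻¹} :=
        Subgroup.subset_closure (Set.mem_insert _ _)
      have hyK : g * x * g⁻¹ ∈ Subgroup.closure {x, g * x * g⁻¹} :=
        Subgroup.subset_closure (Set.mem_insert_of_mem _ rfl)
      exact pw_mono le_top (chain hp _ (hPG.to_subgroup _) j h2 (j + i) (Nat.le_add_right _ _)
        x (g * x * g⁻¹) hxK hyK)
  have h1 := hind k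
  have h2 : pw (p ^ (j + k)) (⊤ : Subgroup G) = ⊥ := by
    rw [eq_bot_iff, pw, closure_le]
    rintro _ ⟨x, -, rfl⟩
    show x ^ (p ^ (j + k)) = 1
    rw [pow_add, mul_comm, pow_mul, hexp x, one_pow]
  rw [h2] at h1
  exact fin_abelian (pow_pos hpp.pos k) hexp ⊥ (by
    intro a ha b hb
    rw [mem_bot] at ha hb
    rw [ha, hb])

/-- the main theorem -/
theorem main {G : Type u} [Group G] {p : ℕ} [Fact p.Prime] (hp : Odd p) (k j : ℕ)
    (hexp : ∀ g : G, g ^ (p ^ k) = 1)
    (hfi : (p = 3 ∧ j = 1) ∨ ∀ L : Subgroup G, L.FG → (pw (p ^ j) L).relIndex L ≠ 0)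
    (hconj : ∀ x g : G, Finite (Subgroup.closure {x, g * x * g⁻¹}) ∧
      ⁅pw (p ^ j) (Subgroup.closure {x, g * x * g⁻¹}),
        pw (p ^ j) (Subgroup.closure {x, g * x * g⁻¹})⁆ ≤
        pw p (pw (p ^ j) (Subgroup.closure {x, g * x * g⁻¹})))
    (L : Subgroup G) (hL : L.FG) : Finite L := by
  have : Group.FG L := (Group.fg_iff_subgroup_fg L).2 hL
  refine main_fg hp k j (fun g => Subtype.ext (by simpa using hexp (g : G))) ?_ ?_
  · rcases hfi with ⟨rfl, rfl⟩ | hfi
    · exact three_fi
    · have h1 := hfi L hL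
      refine ⟨?_⟩
      have h2 : (pw (p ^ j) (⊤ : Subgroup L)) = (pw (p ^ j) L).subgroupOf L := by
        apply map_injective L.subtype_injective
        rw [map_pw, top_map_subtype, subgroupOf_map_subtype, inf_eq_left.2 (pw_le _ _)]
      rw [h2]
      exact h1
  intro x g
  have hmap : (Subgroup.closure {x, g * x * g⁻¹}).map L.subtype =
      Subgroup.closure {(x : G), (g : G) * x * (g : G)⁻¹} := by
    rw [MonoidHom.map_closure]
    congr 1
    rw [Set.image_insert_eq, Set.image_singleton]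
    simp
  obtain ⟨h1, h2⟩ := hconj (x : G) (g : G)
  refine ⟨?_, ?_⟩
  · rw [← hmap] at h1
    exact Finite.of_equiv _
      (equivMapOfInjective (Subgroup.closure {x, g * x * g⁻¹}) L.subtype
        L.subtype_injective).symm.toEquiv
  · apply map_subtype_le
    rw [map_commutator, map_pw, map_pw, map_pw, hmap]
    exact h2

end Pool.Agent.H83.BF
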