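import Pool.Agent.H83.BF.Local

/-!
# Two-generator groups of class at most five: the subgroup of cubes is powerful

`class_five`: if `K` is generated by two elements and has class at most `5` then
`[K^3, K^3] ≤ (K^3)^3`.
`class_six`: if `⟨x, g⟩` has class at most `6` then `⟨x, g x g⁻¹⟩` has class at most `5`.
-/

set_option autoImplicit false

namespace Pool.Agent.H83.BF

open Subgroup
open scoped commutatorElement

universe u

/-- a group generated by two commuting elements is abelian -/
theorem center_eq_top_of_pair {Γ : Type u} [Group Γ] (a b : Γ)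
    (hgen : Subgroup.closure {a, b} = ⊤) (hab : Commute a b) : center Γ = ⊤ := by
  have h1 : (⊤ : Subgroup Γ) ≤ centralizer {a, b} := by
    rw [← hgen, closure_le]
    intro x hx
    rw [SetLike.mem_coe, mem_centralizer_iff]
    intro y hy
    rcases hx with rfl | hx <;> rcases hy with rfl | hy
    · rfl
    · rw [Set.mem_singleton_iff] at hy
      subst hy
      exact hab.eq.symm
    · rw [Set.mem_singleton_iff] at hx
      subst hx
      exact hab.eq
    · rw [Set.mem_singleton_iff] at hx hy
      rw [hx, hy]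
  rw [eq_top_iff, ← hgen, closure_le]
  intro x hx
  rw [SetLike.mem_coe, mem_center_iff]
  intro g
  have h2 := h1 (mem_top g)
  rw [mem_centralizer_iff] at h2
  exact (h2 x hx).symm

theorem commutator_eq_bot_of_pair {Γ : Type u} [Group Γ] (a b : Γ) (hab : Commute a b) :
    ⁅Subgroup.closure {a, b}, Subgroup.closure {a, b}⁆ = ⊥ := by
  rw [commutator_eq_bot_iff_le_centralizer]
  have h0 : ∀ x ∈ ({a, b} : Set Γ), ∀ y ∈ ({a, b} : Set Γ), x * y = y * x := by
    intro x hx y hy
    rcases hx with rfl | hx <;> rcases hy with rfl | hy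
    · rfl
    · rw [Set.mem_singleton_iff] at hy
      subst hy
      exact hab.eq
    · rw [Set.mem_singleton_iff] at hx
      subst hx
      exact hab.eq.symm
    · rw [Set.mem_singleton_iff] at hx hy
      rw [hx, hy]
  have h1 : Subgroup.closure {a, b} ≤ centralizer {a, b} := by
    rw [closure_le]
    intro x hx
    rw [SetLike.mem_coe, mem_centralizer_iff]
    intro y hy
    exact h0 y hy x hx
  rw [closure_le]
  intro x hx
  rw [SetLike.mem_coe, mem_centralizer_iff]
  intro y hy
  have h2 := h1 hy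
  rw [mem_centralizer_iff] at h2
  exact (h2 x hx).symm

/-- a two-generator group of exponent three has class at most two -/
theorem class_two_of_three {Γ : Type u} [Group Γ] (h : ∀ g : Γ, g ^ 3 = 1) (a b : Γ)
    (hgen : Subgroup.closure {a, b} = ⊤) : (⊤ : Subgroup Γ).lowerCentralSeries 2 = ⊥ := by
  have h1 : Commute a ⁅a, b⁆ := by
    have h2 := comm_conj_three h a b
    have h3 : ⁅a, b⁆ = a * (b * a * b⁻¹)⁻¹ := by
      rw [commutatorElement_def]
      group
    rw [h3]
    exact (Commute.refl a).mul_right h2.inv_right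
  have h2 : Commute b ⁅a, b⁆ := by
    have h2 := comm_conj_three h b a
    have h3 : ⁅a, b⁆ = (a * b * a⁻¹) * b⁻¹ := by
      rw [commutatorElement_def]
    rw [h3]
    exact h2.mul_right (Commute.refl b).inv_right
  have h3 : ⁅a, b⁆ ∈ center Γ := by
    have h4 : (⊤ : Subgroup Γ) ≤ centralizer {⁅a, b⁆} := by
      rw [← hgen, closure_le]
      intro x hx
      rw [SetLike.mem_coe, mem_centralizer_iff]
      intro y hy
      rw [Set.mem_singleton_iff] at hy
      subst hy
      rcases hx with rfl | hx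
      · exact h1.eq.symm
      · rw [Set.mem_singleton_iff] at hx
        subst hx
        exact h2.eq.symm
    rw [mem_center_iff]
    intro g
    have h5 := h4 (mem_top g)
    rw [mem_centralizer_iff] at h5
    exact (h5 _ rfl).symm
  have h4 : center (Γ ⧸ center Γ) = ⊤ := by
    apply center_eq_top_of_pair (QuotientGroup.mk' (center Γ) a) (QuotientGroup.mk' (center Γ) b)
    · have h5 := MonoidHom.map_closure (QuotientGroup.mk' (center Γ)) {a, b}
      rw [hgen, map_top_of_surjective _ (QuotientGroup.mk'_surjective _), Set.image_insert_eq,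
        Set.image_singleton] at h5
      exact h5.symm
    · rw [← commutatorElement_eq_one_iff_commute, ← map_commutatorElement, ← MonoidHom.mem_ker,
        QuotientGroup.ker_mk']
      exact h3
  have h5 : ⁅(⊤ : Subgroup Γ), (⊤ : Subgroup Γ)⁆ ≤ center Γ := by
    rw [commutator_le]
    intro x _ y _
    have h6 : QuotientGroup.mk' (center Γ) y ∈ center (Γ ⧸ center Γ) := by rw [h4]; exact mem_top _
    rw [mem_center_iff] at h6
    have h7 : QuotientGroup.mk' (center Γ) ⁅x, y⁆ = 1 := by
      rw [map_commutatorElement, commutatorElement_eq_one_iff_mul_comm]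
      exact h6 _
    rwa [← MonoidHom.mem_ker, QuotientGroup.ker_mk'] at h7
  rw [Subgroup.lowerCentralSeries_succ, Subgroup.lowerCentralSeries_succ,
    Subgroup.lowerCentralSeries_zero, commutator_top_right_eq_bot_iff_le_center]
  exact h5

theorem lcs_one_two {Γ : Type u} [Group Γ] :
    ⁅(⊤ : Subgroup Γ).lowerCentralSeries 1, (⊤ : Subgroup Γ).lowerCentralSeries 2⁆ ≤
      (⊤ : Subgroup Γ).lowerCentralSeries 4 := by
  let N : Subgroup Γ := (⊤ : Subgroup Γ).lowerCentralSeries 4
  have hN : N.Normal := by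
    show ((⊤ : Subgroup Γ).lowerCentralSeries 4).Normal
    infer_instance
  let π : Γ →* Γ ⧸ N := QuotientGroup.mk' N
  have hmap : ∀ n, ((⊤ : Subgroup Γ).lowerCentralSeries n).map π =
      (⊤ : Subgroup (Γ ⧸ N)).lowerCentralSeries n := by
    intro n
    rw [Subgroup.map_lowerCentralSeries, map_top_of_surjective _ (QuotientGroup.mk'_surjective N)]
  have h4 : (⊤ : Subgroup (Γ ⧸ N)).lowerCentralSeries 4 = ⊥ := by
    rw [← hmap]
    exact QuotientGroup.map_mk'_self N
  have h5 : ⁅(⊤ : Subgroup (Γ ⧸ N)).lowerCentralSeries 1,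
      (⊤ : Subgroup (Γ ⧸ N)).lowerCentralSeries 2⁆ = ⊥ := by
    rw [Subgroup.lowerCentralSeries_succ, Subgroup.lowerCentralSeries_zero]
    apply commutator_commutator_eq_bot_of_rotate
    · rw [commutator_comm (⊤ : Subgroup (Γ ⧸ N))]
      exact h4
    · exact h4
  rw [← hmap, ← hmap, ← map_commutator, Subgroup.map_eq_bot_iff, QuotientGroup.ker_mk'] at h5
  exact h5

/-- the computation in a group of class at most five -/
theorem cubes_commute {Q : Type u} [Group Q] (h5 : (⊤ : Subgroup Q).lowerCentralSeries 5 = ⊥)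
    (h3 : ∀ z ∈ (⊤ : Subgroup Q).lowerCentralSeries 2, z ^ 3 = 1)
    (h9 : ∀ z ∈ pw 3 (⊤ : Subgroup Q), z ^ 3 = 1) (h k : Q) : Commute (h ^ 3) (k ^ 3) := by
  have hanti := Subgroup.lowerCentralSeries_antitone (⊤ : Subgroup Q)
  have hstep : ∀ (n : ℕ) (x y : Q), y ∈ (⊤ : Subgroup Q).lowerCentralSeries n →
      ⁅x, y⁆ ∈ (⊤ : Subgroup Q).lowerCentralSeries (n + 1) := by
    intro n x y hy
    rw [Subgroup.lowerCentralSeries_succ, commutator_comm]
    exact commutator_mem_commutator (mem_top x) hy
  have hcen : ∀ y ∈ (⊤ : Subgroup Q).lowerCentralSeries 4, ∀ x, Commute x y := by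
    intro y hy x
    rw [← commutatorElement_eq_one_iff_commute]
    have := hstep 4 x y hy
    rwa [h5, mem_bot] at this
  have h12 : ∀ y ∈ (⊤ : Subgroup Q).lowerCentralSeries 1,
      ∀ z ∈ (⊤ : Subgroup Q).lowerCentralSeries 2,
      ⁅y, z⁆ ∈ (⊤ : Subgroup Q).lowerCentralSeries 4 := fun y hy z hz =>
    lcs_one_two (commutator_mem_commutator hy hz)
  have hu : ⁅h, k⁆ ∈ (⊤ : Subgroup Q).lowerCentralSeries 1 := by
    rw [Subgroup.lowerCentralSeries_succ, Subgroup.lowerCentralSeries_zero]
    exact commutator_mem_commutator (mem_top h) (mem_top k)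
  obtain ⟨u, hu'⟩ : ∃ u, u = ⁅h, k⁆ := ⟨_, rfl⟩
  rw [← hu'] at hu
  -- `u ^ 3` is central
  have hu3 : ∀ x : Q, Commute x (u ^ 3) := by
    intro x
    obtain ⟨a, ha⟩ : ∃ a, a = ⁅x, u⁆ := ⟨_, rfl⟩
    have haγ : a ∈ (⊤ : Subgroup Q).lowerCentralSeries 2 := by rw [ha]; exact hstep 1 x u hu
    obtain ⟨v, hv⟩ : ∃ v, v = ⁅u, a⁆ := ⟨_, rfl⟩
    have hvγ : v ∈ (⊤ : Subgroup Q).lowerCentralSeries 4 := by rw [hv]; exact h12 u hu a haγ
    have hv3 : v ^ 3 = 1 := h3 v (hanti (by norm_num) hvγ)
    have ha3 : a ^ 3 = 1 := h3 a haγ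
    have hxu : x * u * x⁻¹ = a * u := by
      rw [ha, commutatorElement_def]
      group
    have hua : u * a = v * a * u := by
      rw [hv, commutatorElement_def]
      group
    have hvu := hcen v hvγ u
    have hva := hcen v hvγ a
    have h1 : x * u ^ 3 * x⁻¹ = u ^ 3 := by
      rw [← conj_pow, hxu]
      calc (a * u) ^ 3 = a * (u * a) * (u * a) * u := by
            rw [pow_succ, pow_succ, pow_one]; group
        _ = a * (v * a * u) * (v * a * u) * u := by rw [hua]
        _ = a * v * a * (u * v) * a * u * u := by group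
        _ = a * v * a * (v * u) * a * u * u := by rw [hvu.eq]
        _ = (a * v) * (a * v) * (u * a) * u * u := by group
        _ = (a * v) * (a * v) * (v * a * u) * u * u := by rw [hua]
        _ = (a * v) * (a * v) * (v * a) * u ^ 3 := by
            rw [pow_succ u, pow_succ u, pow_one]; group
        _ = (a * v) * (a * v) * (a * v) * u ^ 3 := by rw [← hva.eq]
        _ = (a * v) ^ 3 * u ^ 3 := by rw [pow_succ (a * v), pow_succ (a * v), pow_one]
        _ = u ^ 3 := by rw [hva.mul_pow, ha3, hv3, one_mul, one_mul]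
    rw [mul_inv_eq_iff_eq_mul] at h1
    exact h1
  -- the commutator of `h ^ 3` and `k`
  obtain ⟨a, ha⟩ : ∃ a, a = ⁅h, u⁆ := ⟨_, rfl⟩
  have haγ : a ∈ (⊤ : Subgroup Q).lowerCentralSeries 2 := by rw [ha]; exact hstep 1 h u hu
  obtain ⟨b, hb⟩ : ∃ b, b = ⁅h, a⁆ := ⟨_, rfl⟩
  have hbγ : b ∈ (⊤ : Subgroup Q).lowerCentralSeries 3 := by rw [hb]; exact hstep 2 h a haγ
  obtain ⟨v, hv⟩ : ∃ v, v = ⁅u, a⁆ := ⟨_, rfl⟩
  have hvγ : v ∈ (⊤ : Subgroup Q).lowerCentralSeries 4 := by rw [hv]; exact h12 u hu a haγ
  obtain ⟨t, ht⟩ : ∃ t, t = ⁅h ^ 3, k⁆ := ⟨_, rfl⟩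
  have ha3 : a ^ 3 = 1 := h3 a haγ
  have htP : t ∈ pw 3 (⊤ : Subgroup Q) := by
    rw [ht, commutatorElement_def, mul_assoc, mul_assoc]
    refine mul_mem (pow_mem_pw (mem_top h)) ?_
    rw [← mul_assoc]
    exact (inferInstance : (pw 3 (⊤ : Subgroup Q)).Normal).conj_mem _
      (inv_mem (pow_mem_pw (mem_top h))) k
  have ht3 : t ^ 3 = 1 := h9 t htP
  have hhk : h * k = u * k * h := by
    rw [hu', commutatorElement_def]
    group
  have hhu : h * u = a * u * h := by
    rw [ha, commutatorElement_def]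
    group
  have hha : h * a = b * a * h := by
    rw [hb, commutatorElement_def]
    group
  have hua : u * a = v * a * u := by
    rw [hv, commutatorElement_def]
    group
  have hva := hcen v hvγ a
  have htform : t = b * v * u ^ 3 := by
    have h1 : h ^ 3 * k = b * v * u ^ 3 * k * h ^ 3 := by
      calc h ^ 3 * k = h * (h * (h * k)) := by rw [pow_succ, pow_succ, pow_one]; group
        _ = h * (h * (u * k * h)) := by rw [hhk]
        _ = h * ((h * u) * k * h) := by group
        _ = h * ((a * u * h) * k * h) := by rw [hhu]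
        _ = h * (a * u * (h * k) * h) := by group
        _ = h * (a * u * (u * k * h) * h) := by rw [hhk]
        _ = (h * a) * u * u * k * h * h := by group
        _ = (b * a * h) * u * u * k * h * h := by rw [hha]
        _ = b * a * (h * u) * u * k * h * h := by group
        _ = b * a * (a * u * h) * u * k * h * h := by rw [hhu]
        _ = b * a * a * u * (h * u) * k * h * h := by group
        _ = b * a * a * u * (a * u * h) * k * h * h := by rw [hhu]
        _ = b * a * a * (u * a) * u * (h * k) * h * h := by group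
        _ = b * a * a * (v * a * u) * u * (u * k * h) * h * h := by rw [hua, hhk]
        _ = b * a * (a * v) * a * u * u * u * k * h * h * h := by group
        _ = b * a * (v * a) * a * u * u * u * k * h * h * h := by rw [hva.eq]
        _ = b * (a * v) * a * a * u * u * u * k * h * h * h := by group
        _ = b * (v * a) * a * a * u * u * u * k * h * h * h := by rw [hva.eq]
        _ = b * v * (a * a * a) * (u * u * u) * k * (h * h * h) := by group
        _ = b * v * a ^ 3 * u ^ 3 * k * h ^ 3 := by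
            rw [pow_succ a, pow_succ a, pow_one, pow_succ u, pow_succ u, pow_one, pow_succ h,
              pow_succ h, pow_one]
        _ = _ := by rw [ha3, mul_one]
    rw [ht, commutatorElement_def, h1]
    group
  obtain ⟨e, he⟩ : ∃ e, e = ⁅k, b⁆ := ⟨_, rfl⟩
  have heγ : e ∈ (⊤ : Subgroup Q).lowerCentralSeries 4 := by rw [he]; exact hstep 3 k b hbγ
  have he3 : e ^ 3 = 1 := h3 e (hanti (by norm_num) heγ)
  have hkt : k * t = e * t * k := by
    have hkb : k * b = e * b * k := by
      rw [he, commutatorElement_def]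
      group
    calc k * t = (k * b) * v * u ^ 3 := by rw [htform]; group
      _ = (e * b * k) * v * u ^ 3 := by rw [hkb]
      _ = e * b * (k * v) * u ^ 3 := by group
      _ = e * b * (v * k) * u ^ 3 := by rw [(hcen v hvγ k).eq]
      _ = e * b * v * (k * u ^ 3) := by group
      _ = e * b * v * (u ^ 3 * k) := by rw [(hu3 k).eq]
      _ = e * (b * v * u ^ 3) * k := by group
      _ = e * t * k := by rw [← htform]
  have het := hcen e heγ t
  have hek := hcen e heγ k
  -- `h ^ 3` commutes with `k ^ 3`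
  have hh3k : h ^ 3 * k = t * k * h ^ 3 := by
    rw [ht, commutatorElement_def]
    group
  show h ^ 3 * k ^ 3 = k ^ 3 * h ^ 3
  have hte : Commute t e := het
  have hke : Commute k e := hek
  calc h ^ 3 * k ^ 3 = (h ^ 3 * k) * k * k := by
        rw [pow_succ k, pow_succ k, pow_one]; group
    _ = (t * k * h ^ 3) * k * k := by rw [hh3k]
    _ = t * k * (h ^ 3 * k) * k := by group
    _ = t * k * (t * k * h ^ 3) * k := by rw [hh3k]
    _ = t * (k * t) * k * (h ^ 3 * k) := by group
    _ = t * (e * t * k) * k * (t * k * h ^ 3) := by rw [hkt, hh3k]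
    _ = t * e * t * k * (k * t) * k * h ^ 3 := by group
    _ = t * e * t * k * (e * t * k) * k * h ^ 3 := by rw [hkt]
    _ = t * e * t * (k * e) * t * k * k * h ^ 3 := by group
    _ = t * e * t * (e * k) * t * k * k * h ^ 3 := by rw [hke.eq]
    _ = t * e * t * e * (k * t) * k * k * h ^ 3 := by group
    _ = t * e * t * e * (e * t * k) * k * k * h ^ 3 := by rw [hkt]
    _ = (t * e) * (t * e) * (e * t) * (k * k * k) * h ^ 3 := by group
    _ = (t * e) * (t * e) * (t * e) * (k * k * k) * h ^ 3 := by rw [← hte.eq]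
    _ = (t * e) ^ 3 * k ^ 3 * h ^ 3 := by
        rw [pow_succ (t * e), pow_succ (t * e), pow_one, pow_succ k, pow_succ k, pow_one]
    _ = k ^ 3 * h ^ 3 := by rw [hte.mul_pow, ht3, he3, one_mul, one_mul]

/-- in a group of class at most five generated by two elements the subgroup of cubes is
powerful -/
theorem class_five_top {H : Type u} [Group H] (a b : H) (hgen : Subgroup.closure {a, b} = ⊤)
    (h5 : (⊤ : Subgroup H).lowerCentralSeries 5 = ⊥) :
    ⁅pw 3 (⊤ : Subgroup H), pw 3 (⊤ : Subgroup H)⁆ ≤ pw 3 (pw 3 ⊤) := by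
  -- `γ₃ ≤ H ^ 3`
  have h2 : (⊤ : Subgroup H).lowerCentralSeries 2 ≤ pw 3 ⊤ := by
    have h3 : (⊤ : Subgroup (H ⧸ pw 3 (⊤ : Subgroup H))).lowerCentralSeries 2 = ⊥ := by
      apply class_two_of_three _ (QuotientGroup.mk' (pw 3 (⊤ : Subgroup H)) a)
        (QuotientGroup.mk' (pw 3 (⊤ : Subgroup H)) b)
      · have h5 := MonoidHom.map_closure (QuotientGroup.mk' (pw 3 (⊤ : Subgroup H))) {a, b}
        rw [hgen, map_top_of_surjective _ (QuotientGroup.mk'_surjective _), Set.image_insert_eq,
          Set.image_singleton] at h5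
        exact h5.symm
      · intro g
        obtain ⟨g, rfl⟩ := QuotientGroup.mk'_surjective _ g
        rw [← map_pow, ← MonoidHom.mem_ker, QuotientGroup.ker_mk']
        exact pow_mem_pw (mem_top g)
    rw [← map_top_of_surjective _ (QuotientGroup.mk'_surjective (pw 3 (⊤ : Subgroup H))),
      ← Subgroup.map_lowerCentralSeries, Subgroup.map_eq_bot_iff, QuotientGroup.ker_mk'] at h3
    exact h3
  obtain ⟨R, hR⟩ : ∃ R : Subgroup H, R = pw 3 (pw 3 ⊤) := ⟨_, rfl⟩
  have hRn : R.Normal := by rw [hR]; infer_instance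
  rw [← hR]
  have hker : ∀ y : H, QuotientGroup.mk' R y = 1 ↔ y ∈ R := fun y => by
    rw [← MonoidHom.mem_ker, QuotientGroup.ker_mk']
  have hmap : ∀ n, ((⊤ : Subgroup H).lowerCentralSeries n).map (QuotientGroup.mk' R) =
      (⊤ : Subgroup (H ⧸ R)).lowerCentralSeries n := by
    intro n
    rw [Subgroup.map_lowerCentralSeries, map_top_of_surjective _ (QuotientGroup.mk'_surjective R)]
  have h9 : ∀ z ∈ pw 3 (⊤ : Subgroup (H ⧸ R)), z ^ 3 = 1 := by
    intro z hz
    rw [← map_top_of_surjective _ (QuotientGroup.mk'_surjective R), ← map_pw] at hz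
    obtain ⟨y, hy, rfl⟩ := hz
    rw [← map_pow, hker, hR]
    exact pow_mem_pw hy
  have h3 : ∀ z ∈ (⊤ : Subgroup (H ⧸ R)).lowerCentralSeries 2, z ^ 3 = 1 := by
    intro z hz
    apply h9
    rw [← hmap] at hz
    rw [← map_top_of_surjective _ (QuotientGroup.mk'_surjective R), ← map_pw]
    exact map_mono h2 hz
  have h5' : (⊤ : Subgroup (H ⧸ R)).lowerCentralSeries 5 = ⊥ := by
    rw [← hmap, h5, Subgroup.map_bot]
  have key : ∀ x y : H, ⁅x ^ 3, y ^ 3⁆ ∈ R := by
    intro x y
    rw [← hker, map_commutatorElement, commutatorElement_eq_one_iff_commute, map_pow, map_pow]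
    exact cubes_commute h5' h3 h9 _ _
  -- the commutator subgroup of the images
  have h6 : ⁅(pw 3 (⊤ : Subgroup H)).map (QuotientGroup.mk' R),
      (pw 3 (⊤ : Subgroup H)).map (QuotientGroup.mk' R)⁆ = ⊥ := by
    rw [commutator_eq_bot_iff_le_centralizer, map_pw,
      map_top_of_surjective _ (QuotientGroup.mk'_surjective R)]
    have h0 : ∀ x ∈ ((fun h => h ^ 3) '' ((⊤ : Subgroup (H ⧸ R)) : Set (H ⧸ R))),
        ∀ y ∈ ((fun h => h ^ 3) '' ((⊤ : Subgroup (H ⧸ R)) : Set (H ⧸ R))), x * y = y * x := by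
      rintro _ ⟨x, -, rfl⟩ _ ⟨y, -, rfl⟩
      exact (cubes_commute h5' h3 h9 x y).eq
    have h1 : pw 3 (⊤ : Subgroup (H ⧸ R)) ≤
        centralizer ((fun h => h ^ 3) '' ((⊤ : Subgroup (H ⧸ R)) : Set (H ⧸ R))) := by
      rw [pw, closure_le]
      intro x hx
      rw [SetLike.mem_coe, mem_centralizer_iff]
      intro y hy
      exact h0 y hy x hx
    rw [pw, closure_le]
    intro x hx
    rw [SetLike.mem_coe, mem_centralizer_iff]
    intro y hy
    have h2 := h1 hy
    rw [mem_centralizer_iff] at h2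
    exact (h2 x hx).symm
  rw [← map_commutator, Subgroup.map_eq_bot_iff, QuotientGroup.ker_mk'] at h6
  exact h6

theorem class_five {G : Type u} [Group G] (a b : G)
    (h5 : (Subgroup.closure {a, b}).lowerCentralSeries 5 = ⊥) :
    ⁅pw 3 (Subgroup.closure {a, b}), pw 3 (Subgroup.closure {a, b})⁆ ≤
      pw 3 (pw 3 (Subgroup.closure {a, b})) := by
  obtain ⟨K, hK⟩ : ∃ K : Subgroup G, K = Subgroup.closure {a, b} := ⟨_, rfl⟩
  have ha : a ∈ K := by rw [hK]; exact Subgroup.subset_closure (Set.mem_insert _ _)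
  have hb : b ∈ K := by
    rw [hK]; exact Subgroup.subset_closure (Set.mem_insert_of_mem _ rfl)
  rw [← hK] at h5 ⊢
  have h1 : Subgroup.closure {(⟨a, ha⟩ : K), ⟨b, hb⟩} = ⊤ := by
    apply map_injective K.subtype_injective
    rw [MonoidHom.map_closure, top_map_subtype, Set.image_insert_eq, Set.image_singleton]
    exact hK.symm
  have h2 : (⊤ : Subgroup K).lowerCentralSeries 5 = ⊥ := by
    apply map_injective K.subtype_injective
    rw [Subgroup.top_subtype_lowerCentralSeries, h5, Subgroup.map_bot]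
  have h3 := map_mono (f := K.subtype) (class_five_top _ _ h1 h2)
  rw [map_commutator, map_pw, map_pw, map_pw, top_map_subtype] at h3
  exact h3

theorem class_six_top {Γ : Type u} [Group Γ] (x g : Γ) (n : ℕ) :
    (Subgroup.closure {x, g * x * g⁻¹}).lowerCentralSeries (n + 1) ≤
      (⊤ : Subgroup Γ).lowerCentralSeries (n + 2) := by
  induction n with
  | zero =>
    let N : Subgroup Γ := (⊤ : Subgroup Γ).lowerCentralSeries 2
    have hN : N.Normal := by
      show ((⊤ : Subgroup Γ).lowerCentralSeries 2).Normal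
      infer_instance
    let π : Γ →* Γ ⧸ N := QuotientGroup.mk' N
    have h1 : Commute (π x) (π (g * x * g⁻¹)) := by
      rw [← commutatorElement_eq_one_iff_commute, ← map_commutatorElement, ← MonoidHom.mem_ker,
        QuotientGroup.ker_mk']
      have h2 : ⁅x, g * x * g⁻¹⁆ = ⁅x, ⁅g, x⁆⁆ := by
        rw [commutatorElement_def, commutatorElement_def, commutatorElement_def]
        group
      rw [h2]
      show ⁅x, ⁅g, x⁆⁆ ∈ (⊤ : Subgroup Γ).lowerCentralSeries 2
      rw [Subgroup.lowerCentralSeries_succ, Subgroup.lowerCentralSeries_succ,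
        Subgroup.lowerCentralSeries_zero, commutator_comm]
      exact commutator_mem_commutator (mem_top x)
        (commutator_mem_commutator (mem_top g) (mem_top x))
    have h3 := commutator_eq_bot_of_pair _ _ h1
    have h4 : Subgroup.closure {π x, π (g * x * g⁻¹)} =
        (Subgroup.closure {x, g * x * g⁻¹}).map π := by
      rw [MonoidHom.map_closure, Set.image_insert_eq, Set.image_singleton]
    rw [h4, ← map_commutator, Subgroup.map_eq_bot_iff, QuotientGroup.ker_mk'] at h3
    rw [Subgroup.lowerCentralSeries_succ, Subgroup.lowerCentralSeries_zero]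
    exact h3
  | succ n ih =>
    rw [Subgroup.lowerCentralSeries_succ, Subgroup.lowerCentralSeries_succ]
    exact commutator_mono ih le_top

theorem class_six {G : Type u} [Group G] (x g : G) (n : ℕ)
    (h : (Subgroup.closure {x, g}).lowerCentralSeries (n + 2) = ⊥) :
    (Subgroup.closure {x, g * x * g⁻¹}).lowerCentralSeries (n + 1) = ⊥ := by
  obtain ⟨K, hK⟩ : ∃ K : Subgroup G, K = Subgroup.closure {x, g} := ⟨_, rfl⟩
  have hx : x ∈ K := by rw [hK]; exact Subgroup.subset_closure (Set.mem_insert _ _)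
  have hg : g ∈ K := by
    rw [hK]; exact Subgroup.subset_closure (Set.mem_insert_of_mem _ rfl)
  rw [← hK] at h
  have h2 : (⊤ : Subgroup K).lowerCentralSeries (n + 2) = ⊥ := by
    apply map_injective K.subtype_injective
    rw [Subgroup.top_subtype_lowerCentralSeries, h, Subgroup.map_bot]
  have h3 := class_six_top (⟨x, hx⟩ : K) ⟨g, hg⟩ n
  rw [h2, le_bot_iff] at h3
  have h4 := congrArg (Subgroup.map K.subtype) h3
  rw [Subgroup.map_bot, Subgroup.map_lowerCentralSeries, MonoidHom.map_closure,
    Set.image_insert_eq, Set.image_singleton] at h4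
  exact h4

/-- finitely generated nilpotent groups of finite exponent are finite -/
theorem fin_nilp (n : ℕ) : ∀ (Γ : Type u) [Group Γ] [Group.FG Γ] (m : ℕ), 0 < m →
    (∀ g : Γ, g ^ m = 1) → (⊤ : Subgroup Γ).lowerCentralSeries n = ⊥ → Finite Γ := by
  induction n with
  | zero =>
    intro Γ _ _ m hm hexp h
    rw [Subgroup.lowerCentralSeries_zero] at h
    have : Subsingleton Γ := by
      refine ⟨fun a b => ?_⟩
      have ha : a ∈ (⊤ : Subgroup Γ) := mem_top a
      have hb : b ∈ (⊤ : Subgroup Γ) := mem_top b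
      rw [h, mem_bot] at ha hb
      rw [ha, hb]
    infer_instance
  | succ n ih =>
    intro Γ _ _ m hm hexp h
    let N : Subgroup Γ := (⊤ : Subgroup Γ).lowerCentralSeries n
    have hN : N.Normal := by
      show ((⊤ : Subgroup Γ).lowerCentralSeries n).Normal
      infer_instance
    have h1 : Finite (Γ ⧸ N) := by
      refine ih (Γ ⧸ N) m hm ?_ ?_
      · intro g
        obtain ⟨g, rfl⟩ := QuotientGroup.mk'_surjective _ g
        rw [← map_pow, hexp, map_one]
      · rw [← map_top_of_surjective _ (QuotientGroup.mk'_surjective N),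
          ← Subgroup.map_lowerCentralSeries]
        exact QuotientGroup.map_mk'_self N
    have h2 : N.FiniteIndex := finiteIndex_of_finite_quotient
    refine fin_abelian hm hexp N ?_
    intro a ha b _
    rw [Subgroup.lowerCentralSeries_succ, commutator_top_right_eq_bot_iff_le_center] at h
    exact ((mem_center_iff.1 (h ha)) b).symm

theorem main_three {G : Type u} [Group G] (k : ℕ) (hexp : ∀ g : G, g ^ (3 ^ k) = 1)
    (hconj : ∀ x g : G, (Subgroup.closure {x, g * x * g⁻¹}).lowerCentralSeries 5 = ⊥)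
    (L : Subgroup G) (hL : L.FG) : Finite L := by
  have : Fact (Nat.Prime 3) := ⟨Nat.prime_three⟩
  refine main (p := 3) (by decide) k 1 hexp (Or.inl ⟨rfl, rfl⟩) (fun x g => ⟨?_, ?_⟩) L hL
  · obtain ⟨K, hK⟩ : ∃ K : Subgroup G, K = Subgroup.closure {x, g * x * g⁻¹} := ⟨_, rfl⟩
    have h5 := hconj x g
    have hfg : K.FG := by
      classical
      rw [hK]
      exact ⟨{x, g * x * g⁻¹}, by rw [Finset.coe_insert, Finset.coe_singleton]⟩
    rw [← hK] at h5 ⊢
    have hFG : Group.FG K := (Group.fg_iff_subgroup_fg K).2 hfg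
    refine fin_nilp 5 K (3 ^ k) (by positivity) (fun g => Subtype.ext (by simpa using hexp g)) ?_
    apply map_injective K.subtype_injective
    rw [Subgroup.top_subtype_lowerCentralSeries, h5, Subgroup.map_bot]
  · exact class_five _ _ (hconj x g)

end Pool.Agent.H83.BF
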