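import Pool.Agent.H83.BF.Powerful

/-!
# Powers of two elements of a finite `p`-group `K` with `K^p` powerful

`chain`: if `K^p` is powerful then `[x^(p^i), y^(p^i)] ∈ K^(p^(i+1))` for `x, y ∈ K`, `i ≥ 1`.
-/

set_option autoImplicit false

namespace Pool.Agent.H83.BF

open Subgroup
open scoped commutatorElement

variable {G : Type*} [Group G]

theorem map_subtype_le {A : Subgroup G} {X Y : Subgroup A} (h : X.map A.subtype ≤ Y.map A.subtype) :
    X ≤ Y := (map_le_map_iff_of_injective A.subtype_injective).1 h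

theorem top_map_subtype (A : Subgroup G) : (⊤ : Subgroup A).map A.subtype = A := by
  rw [← MonoidHom.range_eq_map, range_subtype]

/-- `lemA` for a finite `p`-subgroup -/
theorem lemA' {p : ℕ} [Fact p.Prime] (hp : Odd p) (A : Subgroup G) [Finite A]
    (hA : IsPGroup p A) (h : ⁅A, A⁆ ≤ pw p A) : ⁅pw p A, pw p A⁆ ≤ pw p (pw p A) := by
  have hnil : Group.IsNilpotent A := hA.isNilpotent
  have h1 : ⁅(⊤ : Subgroup A), (⊤ : Subgroup A)⁆ ≤ pw p ⊤ := by
    apply map_subtype_le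
    rw [map_commutator, map_pw, top_map_subtype]
    exact h
  have h2 := map_mono (f := A.subtype) (lemA hp h1)
  rw [map_commutator, map_pw, map_pw, map_pw, top_map_subtype] at h2
  exact (commutator_mono le_rfl (pw_le p A)).trans h2

/-- `lemB` for a finite `p`-subgroup -/
theorem lemB' {p : ℕ} [Fact p.Prime] (hp : Odd p) (S : Set G) [Finite (Subgroup.closure S)]
    (hA : IsPGroup p (Subgroup.closure S))
    (h : ⁅Subgroup.closure S, Subgroup.closure S⁆ ≤ pw p (Subgroup.closure S)) :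
    pw p (Subgroup.closure S) = Subgroup.closure ((fun s => s ^ p) '' S) := by
  obtain ⟨A, hAS⟩ : ∃ A : Subgroup G, A = Subgroup.closure S := ⟨_, rfl⟩
  have hfin : Finite A := by rw [hAS]; infer_instance
  have hpA : IsPGroup p A := by rw [hAS]; exact hA
  rw [← hAS] at h ⊢
  have h1 : ⁅(⊤ : Subgroup A), (⊤ : Subgroup A)⁆ ≤ pw p ⊤ := by
    apply map_subtype_le
    rw [map_commutator, map_pw, top_map_subtype]
    exact h
  have hSA : S ⊆ A := by rw [hAS]; exact Subgroup.subset_closure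
  have h2 : Subgroup.closure ((↑) ⁻¹' S : Set A) = ⊤ := by
    apply map_injective A.subtype_injective
    rw [MonoidHom.map_closure, top_map_subtype, hAS]
    congr 1
    ext x
    constructor
    · rintro ⟨y, hy, rfl⟩
      exact hy
    · intro hx
      exact ⟨⟨x, Subgroup.subset_closure hx⟩, hx, rfl⟩
  have h3 := congrArg (Subgroup.map A.subtype) (lemB hp hpA h1 _ h2)
  rw [map_pw, top_map_subtype, MonoidHom.map_closure] at h3
  rw [h3]
  congr 1
  ext x
  constructor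
  · rintro ⟨_, ⟨y, hy, rfl⟩, rfl⟩
    exact ⟨y, hy, by simp⟩
  · rintro ⟨y, hy, rfl⟩
    exact ⟨⟨y, hSA hy⟩ ^ p, ⟨⟨y, hSA hy⟩, hy, rfl⟩, by simp⟩

theorem chain_aux {p : ℕ} [Fact p.Prime] (hp : Odd p) (K : Subgroup G) [Finite K]
    (hK : IsPGroup p K) (j : ℕ)
    (h : ⁅pw (p ^ j) K, pw (p ^ j) K⁆ ≤ pw p (pw (p ^ j) K)) (i : ℕ) :
    ⁅pw (p ^ (j + i)) K, pw (p ^ (j + i)) K⁆ ≤ pw p (pw (p ^ (j + i)) K) ∧
      pw p (pw (p ^ (j + i)) K) = pw (p ^ (j + i + 1)) K := by
  have hfin : ∀ n, Finite (pw n K) := fun n =>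
    Finite.of_injective _ (inclusion_injective (pw_le n K))
  have hpg : ∀ n, IsPGroup p (pw n K) := fun n =>
    hK.of_injective (inclusion (pw_le n K)) (inclusion_injective (pw_le n K))
  have hstep : ∀ n, ⁅pw n K, pw n K⁆ ≤ pw p (pw n K) → pw p (pw n K) = pw (n * p) K := by
    intro n h1
    have : Finite (Subgroup.closure ((fun h => h ^ n) '' (K : Set G))) := hfin n
    have h2 := lemB' hp ((fun h => h ^ n) '' (K : Set G)) (hpg n) h1
    rw [Set.image_image] at h2
    have h3 : pw p (pw n K) = Subgroup.closure ((fun x => (x ^ n) ^ p) '' (K : Set G)) := h2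
    rw [h3, pw]
    congr 1
    ext x
    simp only [Set.mem_image, ← pow_mul]
  induction i with
  | zero =>
    rw [add_zero]
    refine ⟨h, ?_⟩
    rw [hstep _ h, ← pow_succ]
  | succ i ih =>
    obtain ⟨h1, h2⟩ := ih
    have := hfin (p ^ (j + i))
    have h3 := lemA' hp (pw (p ^ (j + i)) K) (hpg _) h1
    rw [h2] at h3
    rw [← add_assoc]
    refine ⟨h3, ?_⟩
    rw [hstep _ h3, ← pow_succ]

theorem chain {p : ℕ} [Fact p.Prime] (hp : Odd p) (K : Subgroup G) [Finite K]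
    (hK : IsPGroup p K) (j : ℕ)
    (h : ⁅pw (p ^ j) K, pw (p ^ j) K⁆ ≤ pw p (pw (p ^ j) K)) (i : ℕ) (hi : j ≤ i) (x y : G)
    (hx : x ∈ K) (hy : y ∈ K) : ⁅x ^ (p ^ i), y ^ (p ^ i)⁆ ∈ pw (p ^ (i + 1)) K := by
  obtain ⟨l, rfl⟩ := Nat.exists_eq_add_of_le hi
  obtain ⟨h1, h2⟩ := chain_aux hp K hK j h l
  rw [h2] at h1
  exact h1 (commutator_mem_commutator (pow_mem_pw hx) (pow_mem_pw hy))

end Pool.Agent.H83.BF
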