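import Mathlib

/-!
# Powerful finite `p`-groups, `p` odd: the two facts needed

`pw n H` is the subgroup generated by the `n`-th powers of the elements of `H`.
-/

set_option autoImplicit false

namespace Pool.Agent.H83.BF

open Subgroup
open scoped commutatorElement

/-- the subgroup generated by the `n`-th powers of the elements of `H` -/
def pw {G : Type*} [Group G] (n : ℕ) (H : Subgroup G) : Subgroup G :=
  closure ((fun h => h ^ n) '' (H : Set G))

section basic

variable {G : Type*} [Group G]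

theorem pow_mem_pw {n : ℕ} {H : Subgroup G} {x : G} (hx : x ∈ H) : x ^ n ∈ pw n H :=
  subset_closure ⟨x, hx, rfl⟩

theorem pw_le (n : ℕ) (H : Subgroup G) : pw n H ≤ H := by
  rw [pw, closure_le]
  rintro _ ⟨h, hh, rfl⟩
  exact pow_mem hh n

theorem pw_mono {n : ℕ} {H K : Subgroup G} (h : H ≤ K) : pw n H ≤ pw n K :=
  closure_mono (Set.image_mono h)

theorem map_pw {G' : Type*} [Group G'] (f : G →* G') (n : ℕ) (H : Subgroup G) :
    (pw n H).map f = pw n (H.map f) := by
  rw [pw, pw, MonoidHom.map_closure, Set.image_image]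
  congr 1
  ext y
  constructor
  · rintro ⟨h, hh, rfl⟩
    exact ⟨f h, ⟨h, hh, rfl⟩, (map_pow f h n).symm⟩
  · rintro ⟨_, ⟨h, hh, rfl⟩, rfl⟩
    exact ⟨h, hh, map_pow f h n⟩

instance pw_normal (n : ℕ) (H : Subgroup G) [hH : H.Normal] : (pw n H).Normal := by
  rw [normal_iff_map_conj_eq]
  intro g
  rw [map_pw, Normal.map_conj_eq]

/-- a power formula for commutators -/
theorem comm_pow (x g : G) (h1 : Commute ⁅x, ⁅x, g⁆⁆ x) (h2 : Commute ⁅x, ⁅x, g⁆⁆ ⁅x, g⁆)
    (n : ℕ) : ⁅x ^ n, g⁆ = ⁅x, g⁆ ^ n * ⁅x, ⁅x, g⁆⁆ ^ (n.choose 2) := by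
  generalize hc : ⁅x, g⁆ = c at *
  generalize he : ⁅x, c⁆ = e at *
  have hxc : x * c * x⁻¹ = e * c := by
    rw [← he, commutatorElement_def]
    group
  induction n with
  | zero => simp [commutatorElement_def]
  | succ n ih =>
    have h3 : ⁅x ^ (n + 1), g⁆ = x * ⁅x ^ n, g⁆ * x⁻¹ * ⁅x, g⁆ := by
      rw [commutatorElement_def, commutatorElement_def, commutatorElement_def, pow_succ']
      group
    have h4 : x * (c ^ n * e ^ n.choose 2) * x⁻¹ = (x * c * x⁻¹) ^ n * e ^ n.choose 2 := by
      have h5 : x * e ^ n.choose 2 * x⁻¹ = e ^ n.choose 2 := by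
        rw [← (h1.pow_left (n.choose 2)).eq, mul_inv_cancel_right]
      rw [conj_pow]
      calc x * (c ^ n * e ^ n.choose 2) * x⁻¹ = x * c ^ n * x⁻¹ * (x * e ^ n.choose 2 * x⁻¹) := by
            group
        _ = _ := by rw [h5]
    rw [h3, ih, hc, h4, hxc, h2.mul_pow, Nat.choose_succ_succ' n 1, Nat.choose_one_right,
      pow_add, pow_succ]
    have h6 : Commute (e ^ n) (c ^ n) := (h2.pow_left n).pow_right n
    have h7 : Commute (e ^ n.choose 2) c := h2.pow_left _
    calc e ^ n * c ^ n * e ^ n.choose 2 * c = (e ^ n * c ^ n) * (e ^ n.choose 2 * c) := by group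
      _ = (c ^ n * e ^ n) * (c * e ^ n.choose 2) := by rw [h6.eq, h7.eq]
      _ = c ^ n * (e ^ n * c) * e ^ n.choose 2 := by group
      _ = c ^ n * (c * e ^ n) * e ^ n.choose 2 := by rw [(h2.pow_left n).eq]
      _ = _ := by group

/-- a power formula for products -/
theorem mul_pow_comm (x y : G) (h1 : Commute ⁅y, x⁆ x) (h2 : Commute ⁅y, x⁆ y) (n : ℕ) :
    (x * y) ^ n = x ^ n * y ^ n * ⁅y, x⁆ ^ (n.choose 2) := by
  generalize hc : ⁅y, x⁆ = c at *
  have hyx : y * x = c * (x * y) := by
    rw [← hc, commutatorElement_def]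
    group
  have h3 : ∀ n : ℕ, y ^ n * x = c ^ n * (x * y ^ n) := by
    intro n
    induction n with
    | zero => simp
    | succ n ih =>
      calc y ^ (n + 1) * x = y ^ n * (y * x) := by rw [pow_succ]; group
        _ = y ^ n * (c * (x * y)) := by rw [hyx]
        _ = (y ^ n * c) * (x * y) := by group
        _ = (c * y ^ n) * (x * y) := by rw [((h2.symm).pow_left n).eq]
        _ = c * (y ^ n * x) * y := by group
        _ = c * (c ^ n * (x * y ^ n)) * y := by rw [ih]
        _ = c ^ (n + 1) * (x * y ^ (n + 1)) := by rw [pow_succ' c, pow_succ y]; group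
  induction n with
  | zero => simp
  | succ n ih =>
    have h4 : Commute (c ^ n.choose 2) (x * y) := (h1.pow_left _).mul_right (h2.pow_left _)
    have h5 : Commute (c ^ n) (x ^ n) := (h1.pow_left n).pow_right n
    calc (x * y) ^ (n + 1) = (x * y) ^ n * (x * y) := pow_succ _ _
      _ = x ^ n * y ^ n * (c ^ n.choose 2 * (x * y)) := by rw [ih]; group
      _ = x ^ n * y ^ n * ((x * y) * c ^ n.choose 2) := by rw [h4.eq]
      _ = x ^ n * (y ^ n * x) * y * c ^ n.choose 2 := by group
      _ = x ^ n * (c ^ n * (x * y ^ n)) * y * c ^ n.choose 2 := by rw [h3]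
      _ = (x ^ n * c ^ n) * x * y ^ n * y * c ^ n.choose 2 := by group
      _ = (c ^ n * x ^ n) * x * y ^ n * y * c ^ n.choose 2 := by rw [h5.eq]
      _ = c ^ n * (x ^ (n + 1) * y ^ (n + 1)) * c ^ n.choose 2 := by
          rw [pow_succ x, pow_succ y]; group
      _ = (x ^ (n + 1) * y ^ (n + 1)) * c ^ n * c ^ n.choose 2 := by
          rw [(((h1.pow_left n).pow_right (n + 1)).mul_right
            ((h2.pow_left n).pow_right (n + 1))).eq]
      _ = _ := by
          rw [Nat.choose_succ_succ' n 1, Nat.choose_one_right, pow_add]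
          group

end basic

end Pool.Agent.H83.BF
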