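import Pool.Agent.H83.BF.Pow

/-!
# Powerful finite `p`-groups, `p` odd

`lemA`: if `P` is nilpotent and `[P, P] ≤ P^n`, `n` odd, then `[P^n, P] ≤ (P^n)^n`.
`lemF`: in a finite `p`-group, `T P^p = P` implies `T = P`.
`lemB`: if `P = ⟨S⟩` is a finite powerful `p`-group, `p` odd, then `P^p = ⟨s^p : s ∈ S⟩`.
-/

set_option autoImplicit false

namespace Pool.Agent.H83.BF

open Subgroup
open scoped commutatorElement

theorem choose_two_odd {n : ℕ} (hn : Odd n) : ∃ m, n.choose 2 = n * m := by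
  obtain ⟨k, rfl⟩ := hn
  refine ⟨k, ?_⟩
  rw [Nat.choose_two_right]
  have : (2 * k + 1) * (2 * k + 1 - 1) = (2 * k + 1) * k * 2 := by
    rw [Nat.add_sub_cancel]
    ring
  rw [this, Nat.mul_div_cancel _ two_pos]

theorem eq_bot_of_le_commutator {P : Type*} [Group P] [Group.IsNilpotent P] (N : Subgroup P)
    (h : N ≤ ⁅N, (⊤ : Subgroup P)⁆) : N = ⊥ := by
  obtain ⟨n, hn⟩ := (Subgroup.nilpotent_iff_lowerCentralSeries (G := P)).1 inferInstance
  have h1 : ∀ m, N ≤ (⊤ : Subgroup P).lowerCentralSeries m := by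
    intro m
    induction m with
    | zero => exact le_top
    | succ m ih =>
      rw [Subgroup.lowerCentralSeries_succ]
      exact h.trans (commutator_mono ih le_rfl)
  rw [eq_bot_iff, ← hn]
  exact h1 n

theorem lemA {P : Type*} [Group P] [Group.IsNilpotent P] {n : ℕ} (hn : Odd n)
    (h : ⁅(⊤ : Subgroup P), (⊤ : Subgroup P)⁆ ≤ pw n ⊤) :
    ⁅pw n (⊤ : Subgroup P), (⊤ : Subgroup P)⁆ ≤ pw n (pw n ⊤) := by
  obtain ⟨m, hm⟩ := choose_two_odd hn
  obtain ⟨Q, hQ⟩ : ∃ Q : Subgroup P, Q = pw n (pw n ⊤) := ⟨_, rfl⟩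
  obtain ⟨M, hM⟩ : ∃ M : Subgroup P, M = ⁅pw n (⊤ : Subgroup P), (⊤ : Subgroup P)⁆ := ⟨_, rfl⟩
  have hQn : Q.Normal := by rw [hQ]; infer_instance
  have hMn : M.Normal := by rw [hM]; infer_instance
  rw [← hQ, ← hM]
  have hMpw : M ≤ pw n ⊤ := by
    rw [hM]
    exact commutator_le_left _ _
  obtain ⟨K, hK⟩ : ∃ K : Subgroup P, K = Q ⊔ ⁅M, (⊤ : Subgroup P)⁆ := ⟨_, rfl⟩
  have hKn : K.Normal := by rw [hK]; infer_instance
  have hQK : Q ≤ K := by rw [hK]; exact le_sup_left
  have hMK' : ⁅M, (⊤ : Subgroup P)⁆ ≤ K := by rw [hK]; exact le_sup_right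
  have hker : ∀ y : P, QuotientGroup.mk' K y = 1 ↔ y ∈ K := fun y => by
    rw [← MonoidHom.mem_ker, QuotientGroup.ker_mk']
  have hcomm : ∀ y ∈ M, ∀ z : P, Commute (QuotientGroup.mk' K y) (QuotientGroup.mk' K z) := by
    intro y hy z
    rw [← commutatorElement_eq_one_iff_commute, ← map_commutatorElement, hker]
    exact hMK' (commutator_mem_commutator hy (mem_top z))
  have hpwn : ∀ y ∈ pw n (⊤ : Subgroup P), (QuotientGroup.mk' K y) ^ n = 1 := by
    intro y hy
    rw [← map_pow, hker]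
    apply hQK
    rw [hQ]
    exact pow_mem_pw hy
  have key : ∀ x g : P, ⁅QuotientGroup.mk' K (x ^ n), QuotientGroup.mk' K g⁆ = 1 := by
    intro x g
    have h1 : ⁅x, g⁆ ∈ pw n (⊤ : Subgroup P) :=
      h (commutator_mem_commutator (mem_top x) (mem_top g))
    have h2 : ⁅x, ⁅x, g⁆⁆ ∈ M := by
      rw [hM, commutator_comm]
      exact commutator_mem_commutator (mem_top x) h1
    rw [map_pow, comm_pow, hm, pow_mul]
    · rw [← map_commutatorElement, ← map_commutatorElement, hpwn _ h1, hpwn _ (hMpw h2),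
        one_pow, mul_one]
    · rw [← map_commutatorElement, ← map_commutatorElement]
      exact hcomm _ h2 _
    · rw [← map_commutatorElement, ← map_commutatorElement]
      exact hcomm _ h2 _
  have hMK : M ≤ K := by
    rw [hM, commutator_le]
    intro a ha b _
    have h3 : pw n (⊤ : Subgroup P) ≤ (center (P ⧸ K)).comap (QuotientGroup.mk' K) := by
      rw [pw, closure_le]
      rintro _ ⟨x, -, rfl⟩
      rw [SetLike.mem_coe, mem_comap, mem_center_iff]
      intro g
      obtain ⟨g, rfl⟩ := QuotientGroup.mk'_surjective K g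
      exact ((commutatorElement_eq_one_iff_mul_comm).1 (key x g)).symm
    have h4 := h3 ha
    rw [mem_comap, mem_center_iff] at h4
    rw [← hker, map_commutatorElement, commutatorElement_eq_one_iff_mul_comm]
    exact (h4 _).symm
  -- nilpotency
  have h5 : M.map (QuotientGroup.mk' Q) = ⊥ := by
    apply eq_bot_of_le_commutator
    have h6 : K.map (QuotientGroup.mk' Q) =
        ⁅M.map (QuotientGroup.mk' Q), (⊤ : Subgroup (P ⧸ Q))⁆ := by
      rw [hK, Subgroup.map_sup, map_commutator, QuotientGroup.map_mk'_self, bot_sup_eq,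
        map_top_of_surjective _ (QuotientGroup.mk'_surjective Q)]
    rw [← h6]
    exact map_mono hMK
  rw [Subgroup.map_eq_bot_iff, QuotientGroup.ker_mk'] at h5
  exact h5

theorem lemF {P : Type*} [Group P] [Finite P] {p : ℕ} [Fact p.Prime] (hP : IsPGroup p P)
    (T : Subgroup P) (h : T ⊔ pw p ⊤ = ⊤) : T = ⊤ := by
  have hnil : Group.IsNilpotent P := hP.isNilpotent
  rcases eq_top_or_exists_le_coatom T with h1 | ⟨K, hK, hTK⟩
  · exact h1
  exfalso
  have hKn : K.Normal :=
    NormalizerCondition.normal_of_coatom K Group.normalizerCondition_of_isNilpotent hK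
  have hpwK : pw p (⊤ : Subgroup P) ≤ K := by
    rw [pw, closure_le]
    rintro _ ⟨x, -, rfl⟩
    by_contra hx
    simp only [SetLike.mem_coe] at hx
    have h2 : K ⊔ zpowers (x ^ p) = ⊤ := by
      apply hK.2
      refine lt_of_le_of_ne le_sup_left fun h3 => hx ?_
      rw [h3]
      exact (le_sup_right : zpowers (x ^ p) ≤ _) (mem_zpowers _)
    have h3 : x ∈ K ⊔ zpowers (x ^ p) := by rw [h2]; exact mem_top x
    obtain ⟨k, hk, z, hz, hkz⟩ := mem_sup_of_normal_left.1 h3
    obtain ⟨j, rfl⟩ := mem_zpowers_iff.1 hz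
    have h4 : (QuotientGroup.mk' K x) ^ (1 - (p : ℤ) * j) = 1 := by
      have h5 : (QuotientGroup.mk' K k) = 1 := by
        rw [← MonoidHom.mem_ker, QuotientGroup.ker_mk']
        exact hk
      have h6 : (QuotientGroup.mk' K x) = (QuotientGroup.mk' K x) ^ ((p : ℤ) * j) := by
        conv_lhs => rw [← hkz]
        rw [map_mul, h5, one_mul, map_zpow, map_pow, zpow_mul, zpow_natCast]
      rw [zpow_sub, zpow_one, ← h6, mul_inv_cancel]
    have h7 : orderOf (QuotientGroup.mk' K x) = 1 := by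
      have h8 : (orderOf (QuotientGroup.mk' K x) : ℤ) ∣ 1 - (p : ℤ) * j :=
        orderOf_dvd_iff_zpow_eq_one.2 h4
      obtain ⟨m, hm⟩ := hP x
      have h9 : orderOf (QuotientGroup.mk' K x) ∣ p ^ m := by
        apply orderOf_dvd_of_pow_eq_one
        rw [← map_pow, hm, map_one]
      obtain ⟨i, -, hi⟩ := (Nat.dvd_prime_pow Fact.out).1 h9
      rcases Nat.eq_zero_or_pos i with hi0 | hi0
      · rw [hi, hi0, pow_zero]
      · exfalso
        have h10 : (p : ℤ) ∣ 1 - (p : ℤ) * j := by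
          refine dvd_trans ?_ h8
          rw [hi]
          push_cast
          exact dvd_pow_self _ hi0.ne'
        have h11 : (p : ℤ) ∣ 1 := by
          have := dvd_add h10 (dvd_mul_right (p : ℤ) j)
          rwa [sub_add_cancel] at this
        have h12 : p ∣ 1 := by exact_mod_cast h11
        exact (Fact.out : p.Prime).one_lt.ne' (Nat.dvd_one.1 h12)
    rw [orderOf_eq_one_iff, ← MonoidHom.mem_ker, QuotientGroup.ker_mk'] at h7
    exact hx (pow_mem h7 p)
  apply hK.1
  rw [eq_top_iff, ← h]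
  exact sup_le hTK hpwK

theorem lemB {P : Type*} [Group P] [Finite P] {p : ℕ} [Fact p.Prime] (hp : Odd p)
    (hP : IsPGroup p P) (h : ⁅(⊤ : Subgroup P), (⊤ : Subgroup P)⁆ ≤ pw p ⊤) (S : Set P)
    (hS : closure S = ⊤) : pw p (⊤ : Subgroup P) = Subgroup.closure ((fun s => s ^ p) '' S) := by
  obtain ⟨m, hm⟩ := choose_two_odd hp
  have hnil : Group.IsNilpotent P := hP.isNilpotent
  have hA := lemA hp h
  obtain ⟨M, hM⟩ : ∃ M : Subgroup P, M = pw p (⊤ : Subgroup P) := ⟨_, rfl⟩
  obtain ⟨Q, hQ⟩ : ∃ Q : Subgroup P, Q = pw p M := ⟨_, rfl⟩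
  obtain ⟨T, hT⟩ : ∃ T : Subgroup P, T = Subgroup.closure ((fun s => s ^ p) '' S) := ⟨_, rfl⟩
  rw [← hM, ← hQ] at hA
  have hMn : M.Normal := by rw [hM]; infer_instance
  have hQn : Q.Normal := by rw [hQ]; infer_instance
  rw [← hT, ← hM]
  have hTM : T ≤ M := by
    rw [hT, closure_le, hM]
    rintro _ ⟨s, -, rfl⟩
    exact pow_mem_pw (mem_top s)
  have hker : ∀ y : P, QuotientGroup.mk' Q y = 1 ↔ y ∈ Q := fun y => by
    rw [← MonoidHom.mem_ker, QuotientGroup.ker_mk']
  have hcomm : ∀ y ∈ M, ∀ z : P, Commute (QuotientGroup.mk' Q y) (QuotientGroup.mk' Q z) := by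
    intro y hy z
    rw [← commutatorElement_eq_one_iff_commute, ← map_commutatorElement, hker]
    exact hA (commutator_mem_commutator hy (mem_top z))
  have hadd : ∀ x y : P, QuotientGroup.mk' Q ((x * y) ^ p) =
      QuotientGroup.mk' Q (x ^ p) * QuotientGroup.mk' Q (y ^ p) := by
    intro x y
    have h1 : ⁅y, x⁆ ∈ M := by
      rw [hM]
      exact h (commutator_mem_commutator (mem_top y) (mem_top x))
    have h2 : (QuotientGroup.mk' Q ⁅y, x⁆) ^ p = 1 := by
      rw [← map_pow, hker, hQ]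
      exact pow_mem_pw h1
    rw [map_pow, map_mul, mul_pow_comm, hm, pow_mul, ← map_commutatorElement, h2, one_pow,
      mul_one, map_pow, map_pow]
    · rw [← map_commutatorElement]
      exact hcomm _ h1 _
    · rw [← map_commutatorElement]
      exact hcomm _ h1 _
  have hMT : M ≤ T ⊔ Q := by
    have h1 : ∀ x : P, x ^ p ∈ T ⊔ Q := by
      intro x
      have h2 : ∀ z : P, z ∈ T ⊔ Q ↔ QuotientGroup.mk' Q z ∈ T.map (QuotientGroup.mk' Q) := by
        intro z
        rw [← mem_comap, comap_map_eq, QuotientGroup.ker_mk']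
      have h3 : x ∈ closure S := by rw [hS]; exact mem_top x
      induction h3 using closure_induction with
      | mem x hx =>
        apply (le_sup_left : T ≤ _)
        rw [hT]
        exact Subgroup.subset_closure ⟨x, hx, rfl⟩
      | one => rw [one_pow]; exact one_mem _
      | mul x y _ _ hx hy =>
        rw [h2] at hx hy ⊢
        rw [hadd]
        exact mul_mem hx hy
      | inv x _ hx =>
        rw [inv_pow]
        exact inv_mem hx
    rw [hM, pw, closure_le]
    rintro _ ⟨x, -, rfl⟩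
    exact h1 x
  -- the Frattini argument
  have h4 : T.subgroupOf M ⊔ pw p ⊤ = ⊤ := by
    have h5 : (T.subgroupOf M ⊔ pw p ⊤).map M.subtype = (⊤ : Subgroup M).map M.subtype := by
      rw [Subgroup.map_sup, map_pw, subgroupOf_map_subtype, inf_eq_left.2 hTM, ← MonoidHom.range_eq_map,
        range_subtype, ← hQ]
      apply le_antisymm
      · refine sup_le hTM ?_
        rw [hQ]
        exact pw_le _ _
      · exact hMT
    exact map_injective M.subtype_injective h5
  have h6 := lemF (P := M) (hP.to_subgroup M) (T.subgroupOf M) h4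
  rw [subgroupOf_eq_top] at h6
  exact le_antisymm h6 hTM

end Pool.Agent.H83.BF
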